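import Pool.Agent.X103.LTMag4

/-!
# The Lieb-Thirring kinetic inequality with magnetic and non-abelian potentials, all dimensions
-/

set_option autoImplicit false

open MeasureTheory Set Filter Topology Real
open scoped Matrix

namespace Pool.Agent.Results.MP_cfe56d_mp.MagneticSpin

/-- The semiclassical constant `d / (d + 2) * (2π)² / ω_d ^ (2 / d)`. -/
noncomputable def Kcl (d : ℕ) : ℝ :=
  d / (d + 2) * ((2 * Real.pi) ^ 2 /
    (volume (Metric.ball (0 : EuclideanSpace ℝ (Fin d)) 1)).toReal ^ ((2 : ℝ) / d))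

/-- The `a`-th component at `x` of the covariant derivative `∂_k u + A_k u` of a function
`u : ℝ^d → ℂ^q`. -/
noncomputable def covD {d q : ℕ} (A : Fin d → (Fin d → ℝ) → Matrix (Fin q) (Fin q) ℂ)
    (k : Fin d) (u : (Fin d → ℝ) → Fin q → ℂ) (x : Fin d → ℝ) (a : Fin q) : ℂ :=
  fderiv ℝ (fun y => u y a) x (Pi.single k 1) + ∑ b, A k x a b * u x b

open LTd Pool.Agent.X103.LTMag in
/-- For every dimension `d ≥ 1`, every number `q ≥ 1` of spin states and every continuous
potential `A = (A_1, …, A_d)` with values in the skew-Hermitian `q × q` matrices: for all `C¹`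
compactly supported `u_1, …, u_N : ℝ^d → ℂ^q` whose Gram matrix is at most `1`, the kinetic energy
of the covariant derivatives is at least `(3/4)^(1/d) K_d^cl q^(-2/d) ∫ ρ^(1 + 2/d)`. -/
theorem result (d : ℕ) (hd : 1 ≤ d) (q : ℕ) (hq : 1 ≤ q) (N : ℕ)
    (A : Fin d → (Fin d → ℝ) → Matrix (Fin q) (Fin q) ℂ)
    (hA : ∀ k a b, Continuous fun x => A k x a b) (hs : ∀ k x, (A k x)ᴴ = - A k x)
    (u : Fin N → (Fin d → ℝ) → Fin q → ℂ) (hu : ∀ n a, ContDiff ℝ 1 fun x => u n x a)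
    (hc : ∀ n a, HasCompactSupport fun x => u n x a)
    (hG : ∀ c : Fin N → ℂ, ∫ x, ∑ a, ‖∑ n, c n * u n x a‖ ^ 2 ≤ ∑ n, ‖c n‖ ^ 2) :
    (3 / 4 : ℝ) ^ (1 / (d : ℝ)) * Kcl d * (q : ℝ) ^ (-(2 / (d : ℝ))) *
      ∫ x, (∑ n, ∑ a, ‖u n x a‖ ^ 2) ^ (1 + 2 / (d : ℝ)) ≤
      ∑ n, ∑ k, ∫ x, ∑ a, ‖covD A k (u n) x a‖ ^ 2 := by
  obtain ⟨m, rfl⟩ : ∃ m, d = m + 1 := ⟨d - 1, by omega⟩
  let U : Fin (N + N) → (Fin (m + 1) → ℝ) → Fin q → ℂ :=
    Fin.append u (fun n x a => Complex.I * u n x a)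
  have hUl : ∀ n, U (Fin.castAdd N n) = u n := fun n => Fin.append_left _ _ n
  have hUr : ∀ n, U (Fin.natAdd N n) = fun x a => Complex.I * u n x a :=
    fun n => Fin.append_right _ _ n
  have hU : ∀ i a, ContDiff ℝ 1 fun x => U i x a := by
    intro i a
    refine Fin.addCases (fun n => ?_) (fun n => ?_) i
    · rw [hUl]; exact hu n a
    · rw [hUr]; exact contDiff_const.mul (hu n a)
  have hUc : ∀ i a, HasCompactSupport fun x => U i x a := by
    intro i a
    refine Fin.addCases (fun n => ?_) (fun n => ?_) i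
    · rw [hUl]; exact hc n a
    · rw [hUr]; exact (hc n a).mul_left
  have hCS := cs_complex A hA hs U hU hUc
  -- the Gram matrix
  have hint1 : ∀ (c : Fin (N + N) → ℝ) (b : Fin q ⊕ Fin q),
      Integrable (fun x => (∑ i, c i * re1 (U i x) b) ^ 2) := by
    intro c b
    refine Continuous.integrable_of_hasCompactSupport ?_ ?_
    · exact (continuous_finsetSum _ fun i _ =>
        continuous_const.mul (hCS.cw i b).continuous).pow 2
    · refine cs_fam' (fun i x => re1 (U i x) b) (fun i => hCS.sw i b) _ fun x hx => ?_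
      rw [Finset.sum_eq_zero fun i _ => by rw [hx i, mul_zero]]
      norm_num
  have hG' : ∀ c : Fin (N + N) → ℝ,
      ∑ b, ∫ x, (∑ i, c i * re1 (U i x) b) ^ 2 ≤ ∑ i, c i ^ 2 := by
    intro c
    rw [← integral_finsetSum _ fun b _ => hint1 c b]
    have h1 := hG (fun n => (⟨c (Fin.castAdd N n), c (Fin.natAdd N n)⟩ : ℂ))
    have h2 : ∀ x, ∑ b, (∑ i, c i * re1 (U i x) b) ^ 2 =
        ∑ a, ‖∑ n, (⟨c (Fin.castAdd N n), c (Fin.natAdd N n)⟩ : ℂ) * u n x a‖ ^ 2 := by
      intro x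
      rw [← re1_sq]
      refine Finset.sum_congr rfl fun b _ => ?_
      congr 1
      rw [Fin.sum_univ_add]
      rcases b with a | a
      · simp only [re1_inl, hUl, hUr, Complex.re_sum, Complex.mul_re, Complex.I_re, Complex.I_im]
        rw [← Finset.sum_add_distrib]
        exact Finset.sum_congr rfl fun n _ => by ring
      · simp only [re1_inr, hUl, hUr, Complex.im_sum, Complex.mul_im, Complex.I_re, Complex.I_im]
        rw [← Finset.sum_add_distrib]
        exact Finset.sum_congr rfl fun n _ => by ring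
    have h3 : ∑ i, c i ^ 2 =
        ∑ n, ‖(⟨c (Fin.castAdd N n), c (Fin.natAdd N n)⟩ : ℂ)‖ ^ 2 := by
      rw [Fin.sum_univ_add, ← Finset.sum_add_distrib]
      refine Finset.sum_congr rfl fun n _ => ?_
      rw [Complex.sq_norm, Complex.normSq_apply]
      ring
    rw [h3]
    simp only [h2]
    exact h1
  have hmain := core' hCS hG'
  -- the density
  have hρ : ∀ x, ∑ i, ∑ b, re1 (U i x) b ^ 2 = 2 * ∑ n, ∑ a, ‖u n x a‖ ^ 2 := by
    intro x
    rw [Fin.sum_univ_add, two_mul]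
    congr 1
    · refine Finset.sum_congr rfl fun n _ => ?_
      rw [re1_sq, hUl]
    · refine Finset.sum_congr rfl fun n _ => ?_
      rw [re1_sq, hUr]
      refine Finset.sum_congr rfl fun a _ => ?_
      rw [norm_mul, Complex.norm_I, one_mul]
  have hcovI : ∀ k n x a, cov A k (fun y a => Complex.I * u n y a) x a =
      Complex.I * covD A k (u n) x a := by
    intro k n x a
    have h1 : HasFDerivAt (fun y => Complex.I * u n y a)
        (Complex.I • fderiv ℝ (fun y => u n y a) x) x :=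
      ((hu n a).differentiable one_ne_zero x).hasFDerivAt.const_mul Complex.I
    rw [cov, covD, pc, h1.fderiv, mul_add, Finset.mul_sum]
    congr 1
    exact Finset.sum_congr rfl fun b _ => by ring
  have hD : ∀ x, ∑ k, ∑ i, ∑ b, re1 (cov A k (U i) x) b ^ 2 =
      2 * ∑ k, ∑ n, ∑ a, ‖covD A k (u n) x a‖ ^ 2 := by
    intro x
    rw [Finset.mul_sum]
    refine Finset.sum_congr rfl fun k _ => ?_
    rw [Fin.sum_univ_add, two_mul]
    congr 1
    · refine Finset.sum_congr rfl fun n _ => ?_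
      rw [re1_sq, hUl]
      rfl
    · refine Finset.sum_congr rfl fun n _ => ?_
      rw [re1_sq, hUr]
      refine Finset.sum_congr rfl fun a _ => ?_
      rw [hcovI, norm_mul, Complex.norm_I, one_mul]
  simp only [hρ, hD] at hmain
  have hp : pp (3 / 2 + m / 2) = 1 + 2 / ((m + 1 : ℕ) : ℝ) := by
    unfold pp
    push_cast
    have h1 : (m : ℝ) + 1 ≠ 0 := by positivity
    have h2 : (3 / 2 + (m : ℝ) / 2 - 1) = ((m : ℝ) + 1) / 2 := by ring
    rw [h2]
    field_simp
    ring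
  rw [const_final, hp, integral_const_mul] at hmain
  set p : ℝ := 1 + 2 / ((m + 1 : ℕ) : ℝ) with hpdef
  have hρ0 : ∀ x, 0 ≤ ∑ n, ∑ a, ‖u n x a‖ ^ 2 := fun x =>
    Finset.sum_nonneg fun n _ => Finset.sum_nonneg fun a _ => by positivity
  have hpow : ∀ x, (2 * ∑ n, ∑ a, ‖u n x a‖ ^ 2) ^ p =
      2 ^ p * (∑ n, ∑ a, ‖u n x a‖ ^ 2) ^ p := fun x =>
    Real.mul_rpow (by norm_num) (hρ0 x)
  simp only [hpow, integral_const_mul] at hmain
  have hcard : (Fintype.card (Fin q ⊕ Fin q) : ℝ) = 2 * q := by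
    rw [Fintype.card_sum, Fintype.card_fin]
    push_cast
    ring
  have hq0 : (0 : ℝ) < q := Nat.cast_pos.2 hq
  have hq1 : (Fintype.card (Fin q ⊕ Fin q) : ℝ) ^ (1 - p) * 2 ^ p = 2 * (q : ℝ) ^ (1 - p) := by
    rw [hcard, Real.mul_rpow (by norm_num) hq0.le, mul_right_comm, ← Real.rpow_add (by norm_num)]
    rw [show (1 - p) + p = 1 by ring, Real.rpow_one]
  have hcovc : ∀ k n a, Continuous fun x => covD A k (u n) x a := by
    intro k n a
    exact (((hu n a).continuous_fderiv one_ne_zero).clm_apply continuous_const).add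
      (continuous_finsetSum _ fun b _ => (hA k a b).mul (hu n b).continuous)
  have hcovs : ∀ k n a, HasCompactSupport fun x => covD A k (u n) x a := by
    intro k n a
    refine ((hc n a).fderiv_apply ℝ _).add ?_
    have h1 : ∀ b, HasCompactSupport fun x => A k x a b * u n x b := fun b => (hc n b).mul_left
    refine HasCompactSupport.intro (isCompact_iUnion fun b => h1 b) fun x hx => ?_
    refine Finset.sum_eq_zero fun b _ => ?_
    exact image_eq_zero_of_notMem_tsupport (f := fun x => A k x a b * u n x b)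
      fun h2 => hx (mem_iUnion.2 ⟨b, h2⟩)
  have hsqi : ∀ k n a, Integrable fun x => ‖covD A k (u n) x a‖ ^ 2 := by
    intro k n a
    refine Continuous.integrable_of_hasCompactSupport ((hcovc k n a).norm.pow 2) ?_
    exact (hcovs k n a).comp_left (g := fun z : ℂ => ‖z‖ ^ 2) (by simp)
  have hkin : ∫ x, ∑ k, ∑ n, ∑ a, ‖covD A k (u n) x a‖ ^ 2 =
      ∑ n, ∑ k, ∫ x, ∑ a, ‖covD A k (u n) x a‖ ^ 2 := by
    rw [integral_finsetSum _ fun k _ => integrable_finsetSum _ fun n _ =>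
      integrable_finsetSum _ fun a _ => hsqi k n a, Finset.sum_comm]
    refine Finset.sum_congr rfl fun k _ => ?_
    rw [integral_finsetSum _ fun n _ => integrable_finsetSum _ fun a _ => hsqi k n a]
  rw [hkin] at hmain
  have hexp : -(2 / ((m + 1 : ℕ) : ℝ)) = 1 - p := by rw [hpdef]; ring
  have hK : Kcl (m + 1) = LTd.Kcl (m + 1) := rfl
  rw [hexp, hK]
  set I := ∫ x, (∑ n, ∑ a, ‖u n x a‖ ^ 2) ^ p
  set E := ∑ n, ∑ k, ∫ x, ∑ a, ‖covD A k (u n) x a‖ ^ 2
  have h5 : (3 / 4 : ℝ) ^ (1 / ((m + 1 : ℕ) : ℝ)) * LTd.Kcl (m + 1) *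
      ((Fintype.card (Fin q ⊕ Fin q) : ℝ) ^ (1 - p) * (2 ^ p * I)) ≤ 2 * E := by
    have h6 : ((m + 1 : ℕ) : ℝ) = (m : ℝ) + 1 := by push_cast; ring
    rw [h6]
    exact hmain
  rw [← mul_assoc ((Fintype.card (Fin q ⊕ Fin q) : ℝ) ^ (1 - p)), hq1] at h5
  linarith

end Pool.Agent.Results.MP_cfe56d_mp.MagneticSpin
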