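import Pool.Agent.X188.LTR8

/-!
# A remainder term and all optimisers of the sharp kinetic inequality in dimension one (helper188)
-/

set_option autoImplicit false

open MeasureTheory Set

namespace Pool.Agent.Results.MP_cfe56d_mp.OptimizersOneDim

/-- `u` is the continuous representative of a function of the Sobolev space `H¹(ℝ)` with weak
derivative `g`. -/
structure IsSobolev (u g : ℝ → ℂ) : Prop where
  memLp : MemLp u 2
  memLp_deriv : MemLp g 2
  integral_deriv : ∀ a b, u b - u a = ∫ x in a..b, g x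

/-- The Gram matrix of the family is at most one. -/
def GramLeOne {N : ℕ} (u : Fin N → ℝ → ℂ) : Prop :=
  ∀ c : Fin N → ℂ, ∫ x, ‖∑ n, c n * u n x‖ ^ 2 ≤ ∑ n, ‖c n‖ ^ 2

/-- The density. -/
noncomputable def density {N : ℕ} (u : Fin N → ℝ → ℂ) (x : ℝ) : ℝ := ∑ n, ‖u n x‖ ^ 2

/-- The real kernel `G(x, y) = Re ∑ₙ conj (uₙ(x)) uₙ(y)`. -/
noncomputable def kernel {N : ℕ} (u : Fin N → ℝ → ℂ) (x y : ℝ) : ℝ :=
  (∑ n, star (u n x) * u n y).re

/-- The `n`-th component of `∫_{y ≤ x} G(x, y) u(y) dy`. -/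
noncomputable def past {N : ℕ} (u : Fin N → ℝ → ℂ) (x : ℝ) (n : Fin N) : ℂ :=
  ∫ y in Iic x, (kernel u x y : ℂ) * u n y

/-- The remainder `ρ (ρ |∫_{y ≤ x} G(x, y) u(y) dy|² - (∫_{y ≤ x} G(x, y)² dy)²)`. -/
noncomputable def remainder {N : ℕ} (u : Fin N → ℝ → ℂ) (x : ℝ) : ℝ :=
  density u x * (density u x * (∑ n, ‖past u x n‖ ^ 2) - (∫ y in Iic x, kernel u x y ^ 2) ^ 2)

/-- In dimension one: the sharp kinetic inequality holds with a nonnegative remainder; equality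
holds exactly for the families `uₙ(x) = zₙ (c sech (π c (x - a)))^{1/2}` with `∑ |zₙ|² = 1`; and
the inequality is strict for orthonormal families with at least two members. -/
theorem result :
    (∀ (N : ℕ) (u g : Fin N → ℝ → ℂ), (∀ n, IsSobolev (u n) (g n)) → GramLeOne u →
      (∀ x, 0 ≤ remainder u x) ∧ Integrable (remainder u) ∧
      Integrable (fun x => density u x ^ 3) ∧
      Real.pi ^ 2 / 4 * (∫ x, density u x ^ 3) + Real.pi * (∫ x, remainder u x) ≤
        ∑ n, ∫ x, ‖g n x‖ ^ 2) ∧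
    (∀ (N : ℕ) (u g : Fin N → ℝ → ℂ), (∀ n, IsSobolev (u n) (g n)) → GramLeOne u →
      (∃ n x, u n x ≠ 0) →
      (∑ n, ∫ x, ‖g n x‖ ^ 2 = Real.pi ^ 2 / 4 * (∫ x, density u x ^ 3) ↔
        ∃ (z : Fin N → ℂ) (c a : ℝ), ∑ n, ‖z n‖ ^ 2 = 1 ∧ 0 < c ∧
          ∀ n x, u n x = z n * (√(c / Real.cosh (Real.pi * c * (x - a))) : ℝ))) ∧
    (∀ (N : ℕ) (u g : Fin N → ℝ → ℂ), 2 ≤ N → (∀ n, IsSobolev (u n) (g n)) →
      (∀ n m, ∫ x, star (u n x) * u m x = if n = m then (1 : ℂ) else 0) →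
      Real.pi ^ 2 / 4 * (∫ x, density u x ^ 3) < ∑ n, ∫ x, ‖g n x‖ ^ 2) := by
  have hC : ∀ (N : ℕ) (u g : Fin N → ℝ → ℂ), (∀ n, IsSobolev (u n) (g n)) → GramLeOne u →
      X188.LTR.CSys u g := fun N u g hs hG =>
    ⟨fun n => (hs n).memLp, fun n => (hs n).memLp_deriv, fun n => (hs n).integral_deriv, hG⟩
  refine ⟨fun N u g hs hG => (hC N u g hs hG).remainder, fun N u g hs hG hne => ⟨?_, ?_⟩, ?_⟩
  · intro heq
    exact (hC N u g hs hG).classify heq.le hne
  · rintro ⟨z, c, a, hz, hc, hu⟩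
    exact (hC N u g hs hG).attained hz hc hu
  · intro N u g hN hs ho
    have hG : GramLeOne u := fun c =>
      (X188.LTR.gram_of_orthonormal (fun n => (hs n).memLp) ho c).le
    have hc := hC N u g hs hG
    by_contra hlt
    push Not at hlt
    have hne : ∃ n x, u n x ≠ 0 := by
      by_contra hno
      push Not at hno
      have h1 := ho ⟨0, by omega⟩ ⟨0, by omega⟩
      rw [if_pos rfl] at h1
      simp only [hno, mul_zero, integral_zero] at h1
      exact zero_ne_one h1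
    obtain ⟨z, c, a, -, -, hu⟩ := hc.classify hlt hne
    exact X188.LTR.not_orthonormal hN hu ho

end Pool.Agent.Results.MP_cfe56d_mp.OptimizersOneDim
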