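import Pool.Agent.X103.LTSysH1

/-!
# The sharp kinetic inequality in dimension one for vector valued functions (helper103)

The density is the matrix valued function `D(x) = ∑ₙ uₙ(x) uₙ(x)*`.
-/

set_option autoImplicit false

open MeasureTheory Set Filter Topology
open scoped Matrix

namespace Pool.Agent.Results.MP_cfe56d_mp.SystemsOneDim

/-- `u` is the continuous representative of a function of the Sobolev space `H¹(ℝ)` with weak
derivative `g`. -/
structure IsSobolev (u g : ℝ → ℂ) : Prop where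
  memLp : MemLp u 2
  memLp_deriv : MemLp g 2
  integral_deriv : ∀ a b, u b - u a = ∫ x in a..b, g x

/-- The matrix valued density `∑ₙ uₙ(x) uₙ(x)*` of functions with values in `ℂ^q`. -/
noncomputable def density {N q : ℕ} (u : Fin N → ℝ → Fin q → ℂ) (x : ℝ) :
    Matrix (Fin q) (Fin q) ℂ :=
  Matrix.of fun a b => ∑ n, u n x a * star (u n x b)

/-- The trace of the cube of the density. -/
noncomputable def cube {N q : ℕ} (u : Fin N → ℝ → Fin q → ℂ) (x : ℝ) : ℝ :=
  ((density u x ^ 3).trace).re

/-- The constants admissible in the kinetic inequality for orthonormal families of functions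
in `H¹(ℝ; ℂ^q)`. -/
def Admissible (q : ℕ) (K : ℝ) : Prop :=
  ∀ (N : ℕ) (u g : Fin N → ℝ → Fin q → ℂ),
    (∀ n a, IsSobolev (fun x => u n x a) (fun x => g n x a)) →
    (∀ n m, ∫ x, ∑ a, star (u n x a) * u m x a = if n = m then (1 : ℂ) else 0) →
    K * ∫ x, cube u x ≤ ∑ n, ∫ x, ∑ a, ‖g n x a‖ ^ 2

lemma toH1 {u g : ℝ → ℂ} (h : IsSobolev u g) : X103.LTSys.IsH1 u g :=
  ⟨h.memLp, h.memLp_deriv, h.integral_deriv⟩

lemma sum_swap {N q : ℕ} {u g : Fin N → ℝ → Fin q → ℂ}
    (hs : ∀ n a, IsSobolev (fun x => u n x a) (fun x => g n x a)) :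
    ∑ n, ∫ x, ∑ a, ‖g n x a‖ ^ 2 = ∑ n, ∑ a, ∫ x, ‖g n x a‖ ^ 2 :=
  Finset.sum_congr rfl fun n _ => integral_finsetSum _ fun a _ => (toH1 (hs n a)).sq_int'

/-- The function on the first coordinate. -/
noncomputable def fst {q : ℕ} (w : ℝ → ℝ) (x : ℝ) (a : Fin q) : ℂ :=
  if a.val = 0 then ((w x / √Real.pi : ℝ) : ℂ) else 0

lemma upper {q : ℕ} (hq : 1 ≤ q) {K : ℝ} (h : Admissible q K) : K ≤ Real.pi ^ 2 / 4 := by
  have hpi := Real.pi_pos
  have hsq : √Real.pi ^ 2 = Real.pi := Real.sq_sqrt hpi.le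
  set i0 : Fin q := ⟨0, hq⟩ with hi0
  have hval : ∀ a : Fin q, a.val = 0 ↔ a = i0 := fun a => by
    rw [hi0, Fin.ext_iff]
  have hs : ∀ a : Fin q, IsSobolev (fun x => fst Pool.Helper490.Sech.w x a)
      (fun x => fst Pool.Helper490.Sech.w' x a) := by
    intro a
    by_cases ha : a.val = 0
    · have e1 : (fun x => fst Pool.Helper490.Sech.w x a) =
          fun x => (((√Real.pi)⁻¹ : ℝ) : ℂ) * ((Pool.Helper490.Sech.w x : ℝ) : ℂ) := by
        funext x; simp only [fst, ha, if_true]; push_cast; ring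
      have e2 : (fun x => fst Pool.Helper490.Sech.w' x a) =
          fun x => (((√Real.pi)⁻¹ : ℝ) : ℂ) * ((Pool.Helper490.Sech.w' x : ℝ) : ℂ) := by
        funext x; simp only [fst, ha, if_true]; push_cast; ring
      have hc1 : Continuous fun x => ((Pool.Helper490.Sech.w x : ℝ) : ℂ) :=
        Complex.continuous_ofReal.comp Pool.Helper490.Sech.w_cont
      have hc2 : Continuous fun x => ((Pool.Helper490.Sech.w' x : ℝ) : ℂ) :=
        Complex.continuous_ofReal.comp Pool.Helper490.Sech.w'_cont
      have m1 : MemLp (fun x => ((Pool.Helper490.Sech.w x : ℝ) : ℂ)) 2 := by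
        rw [memLp_two_iff_integrable_sq_norm hc1.aestronglyMeasurable]
        simp only [Complex.norm_real, Real.norm_eq_abs, sq_abs]
        exact Pool.Helper490.Sech.int_w_sq
      have m2 : MemLp (fun x => ((Pool.Helper490.Sech.w' x : ℝ) : ℂ)) 2 := by
        rw [memLp_two_iff_integrable_sq_norm hc2.aestronglyMeasurable]
        simp only [Complex.norm_real, Real.norm_eq_abs, sq_abs]
        exact Pool.Helper490.Sech.int_w'_sq
      refine ⟨?_, ?_, ?_⟩
      · rw [e1]; exact m1.const_mul _
      · rw [e2]; exact m2.const_mul _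
      · intro s t
        rw [e2, congrFun e1 t, congrFun e1 s]
        rw [intervalIntegral.integral_const_mul]
        rw [intervalIntegral.integral_eq_sub_of_hasDerivAt
          (f := fun x => ((Pool.Helper490.Sech.w x : ℝ) : ℂ))
          (fun x _ => (Pool.Helper490.Sech.w_deriv x).ofReal_comp)
          (hc2.intervalIntegrable _ _)]
        ring
    · have e1 : (fun x => fst Pool.Helper490.Sech.w x a) = fun _ => (0 : ℂ) := by
        funext x; simp only [fst, ha, if_false]
      have e2 : (fun x => fst Pool.Helper490.Sech.w' x a) = fun _ => (0 : ℂ) := by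
        funext x; simp only [fst, ha, if_false]
      rw [e1, e2]
      exact ⟨MemLp.zero', MemLp.zero', fun s t => by simp⟩
  have hw2 : ∀ x, ((Pool.Helper490.Sech.w x / √Real.pi : ℝ)) ^ 2 =
      Real.pi⁻¹ * Pool.Helper490.Sech.w x ^ 2 := fun x => by
    rw [div_pow, hsq]; ring
  have hw'2 : ∀ x, ((Pool.Helper490.Sech.w' x / √Real.pi : ℝ)) ^ 2 =
      Real.pi⁻¹ * Pool.Helper490.Sech.w' x ^ 2 := fun x => by
    rw [div_pow, hsq]; ring
  have h1 := h 1 (fun _ x a => fst Pool.Helper490.Sech.w x a)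
    (fun _ x a => fst Pool.Helper490.Sech.w' x a) (fun _ a => hs a) (by
      intro n m
      rw [if_pos (Subsingleton.elim n m)]
      have e : ∀ x, ∑ a : Fin q, star (fst Pool.Helper490.Sech.w x a) *
          fst Pool.Helper490.Sech.w x a
          = ((Real.pi⁻¹ * Pool.Helper490.Sech.w x ^ 2 : ℝ) : ℂ) := by
        intro x
        rw [Finset.sum_eq_single i0]
        · have : i0.val = 0 := rfl
          simp only [fst, this, if_true]
          rw [← hw2]
          have e3 : star (((Pool.Helper490.Sech.w x / √Real.pi : ℝ) : ℂ)) =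
            ((Pool.Helper490.Sech.w x / √Real.pi : ℝ) : ℂ) := Complex.conj_ofReal _
          rw [e3, ← Complex.ofReal_mul]
          congr 1
          ring
        · intro b _ hb
          have : ¬ b.val = 0 := fun hh => hb ((hval b).1 hh)
          simp only [fst, this, if_false, mul_zero]
        · intro hh; exact absurd (Finset.mem_univ _) hh
      simp only [e]
      rw [integral_complex_ofReal, integral_const_mul, Pool.Helper490.Sech.integral_w_sq,
        inv_mul_cancel₀ hpi.ne']
      simp)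
  have hcube : ∀ x, cube (fun (_ : Fin 1) x (a : Fin q) => fst Pool.Helper490.Sech.w x a) x =
      Real.pi⁻¹ ^ 3 * (Pool.Helper490.Sech.w x ^ 2) ^ 3 := by
    intro x
    have hD : density (fun (_ : Fin 1) x (a : Fin q) => fst Pool.Helper490.Sech.w x a) x =
        Matrix.diagonal (fun a => if a = i0 then
          ((Real.pi⁻¹ * Pool.Helper490.Sech.w x ^ 2 : ℝ) : ℂ) else 0) := by
      ext a b
      simp only [density, Matrix.of_apply, Finset.univ_unique, Finset.sum_singleton,
        Matrix.diagonal_apply]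
      by_cases ha : a = i0
      · by_cases hb : b = i0
        · subst ha
          rw [hb]
          have : i0.val = 0 := rfl
          simp only [fst, this, if_true]
          rw [← hw2]
          have e3 : star (((Pool.Helper490.Sech.w x / √Real.pi : ℝ) : ℂ)) =
            ((Pool.Helper490.Sech.w x / √Real.pi : ℝ) : ℂ) := Complex.conj_ofReal _
          rw [e3, ← Complex.ofReal_mul]
          congr 1
          ring
        · have h3 : ¬ b.val = 0 := fun hh => hb ((hval b).1 hh)
          have h4 : a ≠ b := fun hh => hb (hh ▸ ha)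
          simp only [fst, h3, if_false, star_zero, mul_zero, h4]
      · have h3 : ¬ a.val = 0 := fun hh => ha ((hval a).1 hh)
        by_cases hab : a = b
        · subst hab
          simp only [fst, h3, if_false, zero_mul, if_true, ha]
        · simp only [fst, h3, if_false, zero_mul, hab]
    rw [cube, hD, Matrix.diagonal_pow, Matrix.trace_diagonal, Finset.sum_eq_single i0]
    · simp only [Pi.pow_apply, if_true]
      rw [← Complex.ofReal_pow, Complex.ofReal_re]
      ring
    · intro b _ hb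
      simp only [Pi.pow_apply, hb, if_false]
      norm_num
    · intro hh; exact absurd (Finset.mem_univ _) hh
  have hT : ∀ x, ∑ a : Fin q, ‖fst Pool.Helper490.Sech.w' x a‖ ^ 2 =
      Real.pi⁻¹ * Pool.Helper490.Sech.w' x ^ 2 := by
    intro x
    rw [Finset.sum_eq_single i0]
    · have : i0.val = 0 := rfl
      simp only [fst, this, if_true]
      rw [Complex.norm_real, Real.norm_eq_abs, sq_abs, hw'2]
    · intro b _ hb
      have : ¬ b.val = 0 := fun hh => hb ((hval b).1 hh)
      simp [fst, this]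
    · intro hh; exact absurd (Finset.mem_univ _) hh
  simp only [hcube, Finset.univ_unique, Finset.sum_singleton, hT] at h1
  rw [integral_const_mul, integral_const_mul, Pool.Helper490.Sech.integral_w_six,
    Pool.Helper490.Sech.integral_w'_sq] at h1
  have h2 : K * (Real.pi⁻¹ ^ 3 * (Real.pi / 2)) = K / (2 * Real.pi ^ 2) := by
    field_simp
  have h3 : Real.pi⁻¹ * (Real.pi / 8) = 1 / 8 := by field_simp
  rw [h2, h3, div_le_iff₀ (by positivity)] at h1
  linarith

/-- For every `q ≥ 1` and all functions `u₁, …, u_N` in `H¹(ℝ; ℂ^q)` whose Gram matrix is at most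
one, `π² / 4 ∫ tr D³ ≤ ∑ₙ ∫ |uₙ'|²` with the matrix valued density `D = ∑ₙ uₙ uₙ*`; and `π² / 4`
is the best constant already for orthonormal families. -/
theorem result (q : ℕ) (hq : 1 ≤ q) :
    (∀ (N : ℕ) (u g : Fin N → ℝ → Fin q → ℂ),
      (∀ n a, IsSobolev (fun x => u n x a) (fun x => g n x a)) →
      (∀ c : Fin N → ℂ, ∫ x, ∑ a, ‖∑ n, c n * u n x a‖ ^ 2 ≤ ∑ n, ‖c n‖ ^ 2) →
      Integrable (cube u) ∧
      Real.pi ^ 2 / 4 * ∫ x, cube u x ≤ ∑ n, ∫ x, ∑ a, ‖g n x a‖ ^ 2) ∧
    IsGreatest {K | Admissible q K} (Real.pi ^ 2 / 4) := by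
  have hmain : ∀ (N : ℕ) (u g : Fin N → ℝ → Fin q → ℂ),
      (∀ n a, IsSobolev (fun x => u n x a) (fun x => g n x a)) →
      (∀ c : Fin N → ℂ, ∫ x, ∑ a, ‖∑ n, c n * u n x a‖ ^ 2 ≤ ∑ n, ‖c n‖ ^ 2) →
      Integrable (cube u) ∧
      Real.pi ^ 2 / 4 * ∫ x, cube u x ≤ ∑ n, ∫ x, ∑ a, ‖g n x a‖ ^ 2 := by
    intro N u g hs hG
    rw [sum_swap hs]
    exact X103.LTSys.general_H1 (fun n a => toH1 (hs n a)) hG
  refine ⟨hmain, ?_, fun K hK => upper hq hK⟩
  intro N u g hs ho
  exact (hmain N u g hs fun c =>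
    (X103.LTSys.gram_of_orthonormal (fun n a => toH1 (hs n a)) ho c).le).2

end Pool.Agent.Results.MP_cfe56d_mp.SystemsOneDim
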